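import Mathlib
import Pool.Agent.H14.Fc1

namespace Pool.Agent.Results.MP_08830e_co.Unbounded

open Finset Classical Pool.Agent.H14.Fc1

variable {V : Type}

/-- The monochromatic component of v. -/
def comp (G : SimpleGraph V) (χ : V → Bool) (v : V) : Set V :=
  {u | Relation.ReflTransGen (fun a b => G.Adj a b ∧ χ a = χ b) v u}

/-- v has a neighbour of the other colour. -/
def Legal (G : SimpleGraph V) (χ : V → Bool) (v : V) : Prop := ∃ u, G.Adj v u ∧ χ u ≠ χ v

/-- Recolour the component of v with the other colour. -/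
noncomputable def move (G : SimpleGraph V) (χ : V → Bool) (v : V) : V → Bool :=
  fun u => if u ∈ comp G χ v then !χ v else χ u

lemma comp_col {G : SimpleGraph V} {χ : V → Bool} {v u : V} (h : u ∈ comp G χ v) : χ u = χ v := by
  induction h with
  | refl => rfl
  | tail _ h ih => exact h.2.symm.trans ih

lemma measure_lt [Fintype V] {G : SimpleGraph V} {χ : V → Bool} {v : V} (h : Legal G χ v) :
    #{p : V × V | G.Adj p.1 p.2 ∧ move G χ v p.1 ≠ move G χ v p.2} <
      #{p : V × V | G.Adj p.1 p.2 ∧ χ p.1 ≠ χ p.2} := by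
  have one : ∀ a b, G.Adj a b → a ∈ comp G χ v → move G χ v a = move G χ v b := by
    intro a b hab ha
    unfold move
    by_cases hb : b ∈ comp G χ v
    · rw [if_pos ha, if_pos hb]
    · have : χ a ≠ χ b := fun e => hb (Relation.ReflTransGen.tail ha ⟨hab, e⟩)
      rw [if_pos ha, if_neg hb, ← comp_col ha]
      revert this
      cases χ a <;> cases χ b <;> simp
  refine card_lt_card ⟨fun p hp => ?_, fun hs => ?_⟩
  · simp only [mem_filter, mem_univ, true_and] at hp ⊢
    have h1 : p.1 ∉ comp G χ v := fun a => hp.2 (one _ _ hp.1 a)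
    have h2 : p.2 ∉ comp G χ v := fun a => hp.2 (one _ _ hp.1.symm a).symm
    refine ⟨hp.1, ?_⟩
    simpa [move, h1, h2] using hp.2
  · obtain ⟨u, h1, h2⟩ := h
    have := hs (mem_filter.mpr ⟨mem_univ (v, u), h1, h2.symm⟩)
    exact (mem_filter.mp this).2.2 (one v u h1 Relation.ReflTransGen.refl)

/-- Grundy value: least natural number that is not the value of an option. -/
noncomputable def grundy [Fintype V] (G : SimpleGraph V) (χ : V → Bool) : ℕ :=
  sInf {m | ∀ v, ∀ _ : Legal G χ v, grundy G (move G χ v) ≠ m}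
termination_by #{p : V × V | G.Adj p.1 p.2 ∧ χ p.1 ≠ χ p.2}
decreasing_by exact measure_lt ‹_›

lemma move_single {G : SimpleGraph V} {χ : V → Bool} {v : V}
    (h : ∀ u, G.Adj v u → χ u ≠ χ v) (u : V) : move G χ v u = if u = v then !χ v else χ u := by
  have : u ∈ comp G χ v ↔ u = v := by
    refine ⟨fun hu => ?_, fun e => e ▸ Relation.ReflTransGen.refl⟩
    rcases Relation.ReflTransGen.cases_head hu with e | ⟨c, h1, -⟩
    · exact e.symm
    · exact absurd h1.2.symm (h c h1.1)
  simp only [move, this]

lemma via {G : SimpleGraph V} {χ : V → Bool} {v u z : V} (h1 : v ∈ comp G χ z)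
    (h2 : u ∈ comp G χ z) : u ∈ comp G χ v := by
  induction h1 with
  | refl => exact h2
  | tail _ h ih => exact Relation.ReflTransGen.head ⟨h.1.symm, h.2.symm⟩ ih

variable [Fintype V] {G : SimpleGraph V} {σ : V → Bool} {r : Bool → V}

lemma starL (hr : ∀ s, σ (r s) = s) (ha : ∀ s v, σ v ≠ s → G.Adj (r s) v) (c : Bool) :
    ∀ n (S : Finset V) (χ : V → Bool), S.card = n → (∀ u ∈ S, ∀ v ∈ S, ¬ G.Adj u v) →
      (∀ s, r s ∉ S) → (∀ v, χ v = c ↔ v ∉ S) → grundy G χ = Pool.Agent.H14.Fc1.star n := by
  have zero : ∀ (χ : V → Bool) (d : Bool), (∀ v, χ v = d) → grundy G χ = 0 := by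
    intro χ d h
    rw [grundy]
    exact Nat.eq_zero_of_le_zero (Nat.sInf_le fun v ⟨u, _, h2⟩ => absurd ((h u).trans (h v).symm) h2)
  intro n
  induction n with
  | zero =>
    intro S χ h _ _ h3
    rw [card_eq_zero.mp h] at h3
    exact zero χ c fun v => (h3 v).mpr (by simp)
  | succ n ih =>
    intro S χ h h1 h2 h3
    have adj : ∀ v, G.Adj (r (!σ v)) v := fun v => ha _ _ (by simp)
    have inS : ∀ v ∈ S, grundy G (move G χ v) = Pool.Agent.H14.Fc1.star n := by
      intro v hv
      have n1 : χ v ≠ c := fun e => (h3 v).mp e hv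
      have hs := move_single (G := G) (χ := χ) (v := v) fun u hu e =>
        n1 (e ▸ (h3 u).mpr fun hu' => h1 v hv u hu' hu)
      refine ih (S.erase v) _ (by rw [card_erase_of_mem hv, h]; rfl)
        (fun a ha b hb => h1 a (mem_of_mem_erase ha) b (mem_of_mem_erase hb))
        (fun s e => h2 s (mem_of_mem_erase e)) fun u => ?_
      rw [hs]
      split_ifs with e
      · subst e
        simp only [mem_erase, ne_eq, not_true, false_and, not_false_iff, iff_true]
        revert n1
        cases χ u <;> cases c <;> simp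
      · simp [h3, e]
    have outS : ∀ v ∉ S, grundy G (move G χ v) = 0 := by
      intro v hv
      have rc : ∀ s, χ (r s) = c := fun s => (h3 _).mpr (h2 s)
      have a1 : ∀ s, r s ∈ comp G χ (r true) := by
        intro s
        cases s
        · exact Relation.ReflTransGen.single ⟨ha _ _ (by simp [hr]), by rw [rc, rc]⟩
        · exact Relation.ReflTransGen.refl
      have a2 : ∀ u ∉ S, u ∈ comp G χ (r true) := fun u hu =>
        Relation.ReflTransGen.tail (a1 (!σ u)) ⟨adj u, by rw [rc, (h3 u).mpr hu]⟩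
      refine zero _ (!c) fun u => ?_
      unfold move
      by_cases hu : u ∈ S
      · have n1 : χ u ≠ c := fun e => (h3 u).mp e hu
        split_ifs
        · rw [(h3 v).mpr hv]
        · revert n1
          cases χ u <;> cases c <;> simp
      · rw [if_pos (via (a2 v hv) (a2 u hu)), (h3 v).mpr hv]
    obtain ⟨x, hx⟩ : S.Nonempty := card_pos.mp (by omega)
    have ne : χ x ≠ χ (r (!σ x)) := by
      rw [(h3 _).mpr (h2 _)]
      exact fun e => (h3 x).mp e hx
    rw [grundy, ← mex_star]
    congr 1
    ext m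
    simp only [Set.mem_setOf_eq]
    constructor
    · intro hm
      exact ⟨inS x hx ▸ hm x ⟨_, (adj x).symm, ne.symm⟩, by omega,
        outS _ (h2 (!σ x)) ▸ hm _ ⟨x, adj x, ne⟩⟩
    · intro hm v _
      by_cases hv : v ∈ S
      · exact inS v hv ▸ hm.1
      · exact outS v hv ▸ hm.2.2

noncomputable def alive (G : SimpleGraph V) (σ : V → Bool) (r : Bool → V) (χ : V → Bool) :
    Finset V := {v | v ≠ r (σ v) ∧ χ v = σ v ∧ ∀ u, G.Adj v u → χ u ≠ σ v}

lemma midL (hb : ∀ u v, G.Adj u v → σ u ≠ σ v) (hr : ∀ s, σ (r s) = s)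
    (ha : ∀ s v, σ v ≠ s → G.Adj (r s) v) :
    ∀ n (χ : V → Bool), (alive G σ r χ).card = n → (∀ s, χ (r s) = s) →
      grundy G χ = w G σ (alive G σ r χ) := by
  intro n
  induction n using Nat.strong_induction_on with
  | _ n ih =>
    intro χ hn hc
    have mem : ∀ χ v, v ∈ alive G σ r χ ↔
        v ≠ r (σ v) ∧ χ v = σ v ∧ ∀ u, G.Adj v u → χ u ≠ σ v := fun χ v => by simp [alive]
    have nr : ∀ s, r s ∉ alive G σ r χ := fun s h => ((mem χ _).mp h).1 (by rw [hr])
    have inZ : ∀ v ∈ alive G σ r χ,
        grundy G (move G χ v) = w G σ (del G (alive G σ r χ) v) := by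
      intro v hv
      obtain ⟨v1, v2, v3⟩ := (mem χ v).mp hv
      have hs := move_single (G := G) (χ := χ) (v := v) fun u hu => v2 ▸ v3 u hu
      have e : alive G σ r (move G χ v) = del G (alive G σ r χ) v := by
        ext u
        simp only [del, mem_filter, mem, hs]
        constructor
        · rintro ⟨a, b, c⟩
          have n1 : u ≠ v := by
            rintro rfl
            simp [v2] at b
          have n2 : ¬ G.Adj v u := fun h => by
            have h1 := c v h.symm
            have h2 := hb _ _ h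
            rw [if_pos rfl, v2] at h1
            revert h1 h2
            cases σ u <;> cases σ v <;> simp
          rw [if_neg n1] at b
          refine ⟨⟨a, b, fun y hy => ?_⟩, n1, n2⟩
          have := c y hy
          rwa [if_neg (fun e : y = v => n2 (e ▸ hy.symm))] at this
        · rintro ⟨⟨a, b, c⟩, n1, n2⟩
          refine ⟨a, by rw [if_neg n1, b], fun y hy => ?_⟩
          rw [if_neg (fun e : y = v => n2 (e ▸ hy.symm))]
          exact c y hy
      rw [← e]
      refine ih _ (by rw [e, ← hn]; exact del_lt G hv) _ rfl fun s => ?_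
      rw [hs, if_neg (fun e : r s = v => nr s (e ▸ hv)), hc]
    have outZ : ∀ v ∉ alive G σ r χ,
        grundy G (move G χ v) = Pool.Agent.H14.Fc1.star (cnt σ (χ v) (alive G σ r χ)) := by
      intro v hv
      have a1 : ∀ u, χ u = χ v → σ u ≠ χ v → u ∈ comp G χ (r (χ v)) := fun u h1 h2 =>
        Relation.ReflTransGen.single ⟨ha _ _ h2, by rw [hc, h1]⟩
      have a2 : ∀ u, χ u = χ v → u ∉ alive G σ r χ → u ∈ comp G χ (r (χ v)) := by
        intro u h1 h2
        by_cases h3 : σ u = χ v
        · by_cases h4 : u = r (σ u)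
          · rw [h4, h3]
            exact Relation.ReflTransGen.refl
          · rw [mem] at h2
            push Not at h2
            obtain ⟨y, h5, h6⟩ := h2 h4 (h1.trans h3.symm)
            exact Relation.ReflTransGen.tail (a1 y (h6.trans h3) (h3 ▸ (hb _ _ h5).symm))
              ⟨h5.symm, by rw [h6, h3, h1]⟩
        · exact a1 u h1 h3
      have a3 : ∀ u ∈ comp G χ v, u ∉ alive G σ r χ := by
        intro u hu hz
        rcases Relation.ReflTransGen.cases_tail hu with e | ⟨y, -, h1⟩
        · exact hv (e ▸ hz)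
        · obtain ⟨-, b, c⟩ := (mem χ u).mp hz
          exact c y h1.1.symm (h1.2.trans b)
      refine starL hr ha (!χ v) _ ((alive G σ r χ).filter fun u => σ u = χ v) _ rfl
        (fun a ha' b hb' h => hb _ _ h ((mem_filter.mp ha').2.trans (mem_filter.mp hb').2.symm))
        (fun s h => nr s (mem_filter.mp h).1) fun u => ?_
      unfold move
      rw [mem_filter]
      split_ifs with hu
      · simp [a3 u hu]
      · by_cases hz : u ∈ alive G σ r χ
        · rw [← ((mem χ u).mp hz).2.1]
          simp only [hz, true_and]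
          cases χ u <;> cases χ v <;> simp
        · have : χ u ≠ χ v := fun e => hu (via (a2 v rfl hv) (a2 u e hz))
          simp only [hz, false_and, not_false_iff, iff_true]
          revert this
          cases χ u <;> cases χ v <;> simp
    rw [grundy, w]
    congr 1
    ext m
    simp only [Set.mem_setOf_eq]
    constructor
    · intro hm
      refine ⟨fun s => ?_, fun v hv => inZ v hv ▸ hm v ⟨r (!σ v), (ha _ _ (by simp)).symm, ?_⟩⟩
      · have := hm (r s) ⟨r (!s), ha _ _ (by simp [hr]), by simp [hc]⟩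
        rwa [outZ _ (nr s), hc] at this
      · rw [hc, ((mem χ v).mp hv).2.1]
        simp
    · intro hm v _
      by_cases hv : v ∈ alive G σ r χ
      · exact inZ v hv ▸ hm.2 v hv
      · exact outZ v hv ▸ hm.1 _

theorem result (N : ℕ) : ∃ (V : Type) (_ : Fintype V) (G : SimpleGraph V) (χ : V → Bool),
    G.Connected ∧ N < grundy G χ := by
  obtain ⟨u, ⟨G, σ, Z, D, hb, -, -, -, rfl⟩, hu⟩ := unbounded N
  set Y := Z ∪ D
  let σ' : Y ⊕ Bool → Bool := Sum.elim (fun a => σ a) id
  let Γ : SimpleGraph (Y ⊕ Bool) :=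
    { Adj := fun a b => σ' a ≠ σ' b ∧ ∀ x y, a = .inl x → b = .inl y → G.Adj x y
      symm := ⟨fun a b h => ⟨h.1.symm, fun x y h1 h2 => (h.2 y x h2 h1).symm⟩⟩
      loopless := ⟨fun a h => h.1 rfl⟩ }
  have ha : ∀ s v, σ' v ≠ s → Γ.Adj (.inr s) v := fun s v h => ⟨h.symm, by simp⟩
  refine ⟨Y ⊕ Bool, inferInstance, Γ, σ', ?_, ?_⟩
  · have : ∀ v, Γ.Reachable (.inr true) v := by
      intro v
      have h1 : Γ.Reachable (.inr true) (.inr (!σ' v)) := by
        cases σ' v
        · rfl
        · exact (ha true (.inr false) (by simp [σ'])).reachable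
      exact h1.trans (ha _ v (by simp)).reachable
    exact ⟨fun a b => (this a).symm.trans (this b)⟩
  · rw [midL (G := Γ) (σ := σ') (r := Sum.inr) (fun u v h => h.1) (fun _ => rfl) ha _ σ' rfl (fun _ => rfl)]
    have e : alive Γ σ' Sum.inr σ' = (univ : Finset Y).image Sum.inl := by
      ext v
      rcases v with v | v
      · simp only [alive, mem_filter, mem_univ, true_and, mem_image]
        exact ⟨fun _ => ⟨v, rfl⟩, fun _ => ⟨by simp, fun u h => h.1.symm⟩⟩
      · simp [alive, σ']
    have hb0 : ∀ a b : Y, (G.comap Subtype.val).Adj a b → σ a ≠ σ b := fun a b h => hb _ _ h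
    have k1 := key (σ := fun a : Y => σ a) hb0 hb Subtype.val Subtype.val_injective false false
      (by simp) (fun _ _ => Iff.rfl) _ univ ∅ ∅ rfl (by simp [Dom]) (by simp [Dom]) (by simp) rfl
    have k2 := key (σ := fun a : Y => σ a) (G' := Γ) (σ' := σ') hb0 (fun u v h => h.1) Sum.inl
      Sum.inl_injective false false (by simp [σ'])
      (fun a b => ⟨fun h => h.2 a b rfl rfl, fun h => ⟨hb0 a b h, by simpa using h⟩⟩)
      _ univ ∅ ∅ rfl (by simp [Dom]) (by simp [Dom]) (by simp) rfl
    have e2 : (univ : Finset Y).image Subtype.val = Y := by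
      ext x
      simp
    simp only [union_empty, e2] at k1 k2
    rw [e]
    convert hu using 1
    rw [← k1, k2]
    congr

end Pool.Agent.Results.MP_08830e_co.Unbounded
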